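import Mathlib

/-!
Infinitely many rational Diophantine quintuples at least four of whose elements are squares
(proof by helper52).

For a triple of squares `a², b², c²` with `a²b²+1 = r²`, `a²c²+1 = s²`, `b²c²+1 = t²` the point
`S = (1, rst)` of `Y² = (X+a²b²)(X+a²c²)(X+b²c²)` gives the elements `1/(abc)²` (from `S`)
and `X(2S)/(abc)²` (from `2S`).
-/

set_option autoImplicit false

namespace Pool.Agent.H86.ET

/-- the doubling identity -/
lemma key (a b c r s t : ℚ) (ha : a ≠ 0) (hb : b ≠ 0) (hc : c ≠ 0)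
    (hr0 : r ≠ 0) (hs0 : s ≠ 0) (ht0 : t ≠ 0)
    (hr : a ^ 2 * b ^ 2 + 1 = r ^ 2) (hs : a ^ 2 * c ^ 2 + 1 = s ^ 2)
    (ht : b ^ 2 * c ^ 2 + 1 = t ^ 2) (X : ℚ)
    (hX : X = ((r * s / t + r * t / s + s * t / r) / 2) ^ 2
      - (a ^ 2 * b ^ 2 + a ^ 2 * c ^ 2 + b ^ 2 * c ^ 2) - 2) :
    IsSquare (a ^ 2 * (X / (a * b * c) ^ 2) + 1) ∧
    IsSquare (b ^ 2 * (X / (a * b * c) ^ 2) + 1) ∧
    IsSquare (c ^ 2 * (X / (a * b * c) ^ 2) + 1) ∧
    IsSquare (1 / (a * b * c) ^ 2 * (X / (a * b * c) ^ 2) + 1) := by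
  have eab : a ^ 2 * b ^ 2 = r ^ 2 - 1 := by linarith
  have eac : a ^ 2 * c ^ 2 = s ^ 2 - 1 := by linarith
  have ebc : b ^ 2 * c ^ 2 = t ^ 2 - 1 := by linarith
  refine ⟨⟨(-(r * s / t) + r * t / s + s * t / r) / (2 * (b * c)), ?_⟩,
    ⟨(r * s / t - r * t / s + s * t / r) / (2 * (a * c)), ?_⟩,
    ⟨(r * s / t + r * t / s - s * t / r) / (2 * (a * b)), ?_⟩,
    ⟨(r * s * t - (r * s / t + r * t / s + s * t / r) / 2) / (a * b * c) ^ 2, ?_⟩⟩
  · have h1 : X + b ^ 2 * c ^ 2 = ((-(r * s / t) + r * t / s + s * t / r) / 2) ^ 2 := by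
      rw [hX, eab, eac, ebc]; field_simp; ring
    have h2 : a ^ 2 * (X / (a * b * c) ^ 2) + 1 = (X + b ^ 2 * c ^ 2) / (b * c) ^ 2 := by
      field_simp
    rw [h2, h1]; field_simp
  · have h1 : X + a ^ 2 * c ^ 2 = ((r * s / t - r * t / s + s * t / r) / 2) ^ 2 := by
      rw [hX, eab, eac, ebc]; field_simp; ring
    have h2 : b ^ 2 * (X / (a * b * c) ^ 2) + 1 = (X + a ^ 2 * c ^ 2) / (a * c) ^ 2 := by
      field_simp
    rw [h2, h1]; field_simp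
  · have h1 : X + a ^ 2 * b ^ 2 = ((r * s / t + r * t / s - s * t / r) / 2) ^ 2 := by
      rw [hX, eab, eac, ebc]; field_simp; ring
    have h2 : c ^ 2 * (X / (a * b * c) ^ 2) + 1 = (X + a ^ 2 * b ^ 2) / (a * b) ^ 2 := by
      field_simp
    rw [h2, h1]; field_simp
  · have h0 : (a * b * c) ^ 4 = (r ^ 2 - 1) * (s ^ 2 - 1) * (t ^ 2 - 1) := by
      rw [← eab, ← eac, ← ebc]; ring
    have h1 : X + (a * b * c) ^ 4
        = (r * s * t - (r * s / t + r * t / s + s * t / r) / 2) ^ 2 := by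
      rw [hX, h0, eab, eac, ebc]; field_simp; ring
    have h2 : 1 / (a * b * c) ^ 2 * (X / (a * b * c) ^ 2) + 1
        = (X + (a * b * c) ^ 4) / ((a * b * c) ^ 2) ^ 2 := by
      field_simp
    rw [h2, h1]; field_simp

/-- numerical bounds for the abscissa of `2S` -/
lemma bounds (r s X : ℚ) (hr1 : 1 ≤ r) (hr2 : r ≤ 1001 / 1000)
    (hs1 : 5 / 4 ≤ s) (hs2 : s ≤ 1252 / 1000)
    (hX : X = ((r * s / (5 / 4) + r * (5 / 4) / s + s * (5 / 4) / r) / 2) ^ 2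
      - (r ^ 2 + s ^ 2 + (5 / 4) ^ 2 - 3) - 2) :
    3 / 100 < X ∧ X < 6 / 100 := by
  have hr0 : 0 < r := by linarith
  have hs0 : 0 < s := by linarith
  have a1 : 1 ≤ r * s / (5 / 4) := by
    rw [le_div_iff₀ (by norm_num)]; nlinarith
  have a2 : r * s / (5 / 4) ≤ 1003 / 1000 := by
    rw [div_le_iff₀ (by norm_num)]; nlinarith
  have b1 : 998 / 1000 ≤ r * (5 / 4) / s := by
    rw [le_div_iff₀ hs0]; nlinarith
  have b2 : r * (5 / 4) / s ≤ 1001 / 1000 := by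
    rw [div_le_iff₀ hs0]; nlinarith
  have c1 : 1560 / 1000 ≤ s * (5 / 4) / r := by
    rw [le_div_iff₀ hr0]; nlinarith
  have c2 : s * (5 / 4) / r ≤ 1565 / 1000 := by
    rw [div_le_iff₀ hr0]; nlinarith
  set x1 := r * s / (5 / 4) with hx1
  set x2 := r * (5 / 4) / s with hx2
  set x3 := s * (5 / 4) / r with hx3
  have hl1 : 1779 / 1000 ≤ (x1 + x2 + x3) / 2 := by linarith
  have hl2 : (x1 + x2 + x3) / 2 ≤ 17845 / 10000 := by linarith
  have hq1 : (1779 / 1000) ^ 2 ≤ ((x1 + x2 + x3) / 2) ^ 2 := by gcongr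
  have hq2 : ((x1 + x2 + x3) / 2) ^ 2 ≤ (17845 / 10000) ^ 2 := by gcongr
  have hrr1 : 1 ≤ r ^ 2 := by nlinarith
  have hrr2 : r ^ 2 ≤ (1001 / 1000) ^ 2 := by gcongr
  have hss1 : (5 / 4) ^ 2 ≤ s ^ 2 := by gcongr
  have hss2 : s ^ 2 ≤ (1252 / 1000) ^ 2 := by gcongr
  rw [hX]
  constructor <;> nlinarith

/-- the one-parameter family of triples of squares: all the needed facts for a small parameter -/
lemma family (w : ℚ) (hw0 : 0 < w) (hw1 : w ≤ 1 / 100) :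
    ∃ A B C D E : ℚ, 0 < B ∧ B < A ∧ A < 1 ∧ 1 < E ∧ E < C ∧ C < D ∧
      D = 4 * (1 - 12 * w ^ 2) ^ 2 / (81 * w ^ 2) ∧
      IsSquare A ∧ IsSquare B ∧ IsSquare C ∧ IsSquare D ∧
      IsSquare (A * B + 1) ∧ IsSquare (A * C + 1) ∧ IsSquare (A * D + 1) ∧
      IsSquare (A * E + 1) ∧ IsSquare (B * C + 1) ∧ IsSquare (B * D + 1) ∧
      IsSquare (B * E + 1) ∧ IsSquare (C * D + 1) ∧ IsSquare (C * E + 1) ∧
      IsSquare (D * E + 1) := by
  have hu1 : w ^ 2 ≤ 1 / 10000 := by nlinarith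
  have hu0 : 0 < w ^ 2 := by positivity
  obtain ⟨P, hPd⟩ : ∃ P : ℚ, P = 1 - 12 * w ^ 2 := ⟨_, rfl⟩
  obtain ⟨Q, hQd⟩ : ∃ Q : ℚ, Q = 1 + 24 * w ^ 2 := ⟨_, rfl⟩
  obtain ⟨R, hRd⟩ : ∃ R : ℚ, R = 1 + 6 * w ^ 2 := ⟨_, rfl⟩
  rw [← hPd]
  have hP : 0 < P := by rw [hPd]; linarith
  have hQ : 0 < Q := by rw [hQd]; positivity
  have hR : 0 < R := by rw [hRd]; positivity
  obtain ⟨a, ha⟩ : ∃ a : ℚ, a = 6 * w / P := ⟨_, rfl⟩
  obtain ⟨b, hb⟩ : ∃ b : ℚ, b = 6 * w * R / Q := ⟨_, rfl⟩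
  obtain ⟨c, hc⟩ : ∃ c : ℚ, c = Q / (8 * w * R) := ⟨_, rfl⟩
  obtain ⟨r, hr⟩ : ∃ r : ℚ, r = (1 + 12 * w ^ 2 + 360 * w ^ 4) / (Q * P) := ⟨_, rfl⟩
  obtain ⟨s, hs⟩ : ∃ s : ℚ, s = (5 + 24 * w ^ 2 + 288 * w ^ 4) / (4 * R * P) := ⟨_, rfl⟩
  have ha0 : 0 < a := by rw [ha]; positivity
  have hb0 : 0 < b := by rw [hb]; positivity
  have hc0 : 0 < c := by rw [hc]; positivity
  have hr0 : 0 < r := by rw [hr]; positivity
  have hs0 : 0 < s := by rw [hs]; positivity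
  have er : a ^ 2 * b ^ 2 + 1 = r ^ 2 := by
    rw [ha, hb, hr]; field_simp; subst hPd hQd hRd; ring
  have es : a ^ 2 * c ^ 2 + 1 = s ^ 2 := by
    rw [ha, hc, hs]; field_simp; subst hPd hQd hRd; ring
  have et : b ^ 2 * c ^ 2 + 1 = (5 / 4) ^ 2 := by
    rw [hb, hc]; field_simp; norm_num
  have hQP : 0 < Q * P := by positivity
  have hRP : 0 < 4 * R * P := by positivity
  have hu2 : 0 ≤ w ^ 4 := by positivity
  have hu3 : w ^ 4 ≤ 1 / 10000 * w ^ 2 := by nlinarith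
  have eQP : Q * P = 1 + 12 * w ^ 2 - 288 * w ^ 4 := by subst hPd hQd hRd; ring
  have eRP : 4 * R * P = 4 - 24 * w ^ 2 - 288 * w ^ 4 := by subst hPd hQd hRd; ring
  have hr1 : 1 ≤ r := by
    rw [hr, le_div_iff₀ hQP, eQP]; linarith
  have hr2 : r ≤ 1001 / 1000 := by
    rw [hr, div_le_iff₀ hQP, eQP]; linarith
  have hs1 : 5 / 4 ≤ s := by
    rw [hs, le_div_iff₀ hRP, eRP]; linarith
  have hs2 : s ≤ 1252 / 1000 := by
    rw [hs, div_le_iff₀ hRP, eRP]; linarith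
  obtain ⟨X, hX⟩ : ∃ X : ℚ, X = ((r * s / (5 / 4) + r * (5 / 4) / s + s * (5 / 4) / r) / 2) ^ 2
      - (a ^ 2 * b ^ 2 + a ^ 2 * c ^ 2 + b ^ 2 * c ^ 2) - 2 := ⟨_, rfl⟩
  obtain ⟨hX1, hX2⟩ := bounds r s X hr1 hr2 hs1 hs2 (by rw [hX]; linarith)
  obtain ⟨k1, k2, k3, k4⟩ := key a b c r s (5 / 4) ha0.ne' hb0.ne' hc0.ne' hr0.ne' hs0.ne'
    (by norm_num) er es et X hX
  have habc : a * b * c = 9 * w / (2 * P) := by
    rw [ha, hb, hc]; field_simp; norm_num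
  have hD : 1 / (a * b * c) ^ 2 = 4 * P ^ 2 / (81 * w ^ 2) := by
    rw [habc]; field_simp; norm_num
  have hE : X / (a * b * c) ^ 2 = X * (1 / (a * b * c) ^ 2) := by ring
  have hRPQ : R * P < Q := by
    linarith
  have hRPQ2 : 99 / 100 * Q ≤ R * P := by
    linarith
  have hP1 : 99 / 100 ≤ P := by rw [hPd]; linarith
  have hwP : 6 * w < P := by linarith
  have hba : b < a := by
    rw [hb, ha, div_lt_div_iff₀ hQ hP]
    have h5 := mul_lt_mul_of_pos_left hRPQ (by positivity : 0 < 6 * w)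
    linarith
  have ha1 : a < 1 := by
    rw [ha, div_lt_one hP]; exact hwP
  have hDpos : 400 < 4 * P ^ 2 / (81 * w ^ 2) := by
    rw [lt_div_iff₀ (by positivity)]
    have h5 : (99 / 100) ^ 2 ≤ P ^ 2 := by gcongr
    linarith
  have hDc : 4 * P ^ 2 / (81 * w ^ 2) = 256 / 81 * (R * P / Q) ^ 2 * c ^ 2 := by
    rw [hc]; field_simp; norm_num
  have hq1 : 99 / 100 ≤ R * P / Q := by
    rw [le_div_iff₀ hQ]; exact hRPQ2
  have hq2 : R * P / Q ≤ 1 := by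
    rw [div_le_one hQ]; exact hRPQ.le
  have hq3 : (99 / 100) ^ 2 ≤ (R * P / Q) ^ 2 := by gcongr
  have hq4 : (R * P / Q) ^ 2 ≤ 1 := by
    calc (R * P / Q) ^ 2 ≤ 1 ^ 2 := by gcongr
      _ = 1 := by norm_num
  have hcc : 0 < c ^ 2 := by positivity
  have hDC1 : 4 * P ^ 2 / (81 * w ^ 2) ≤ 4 * c ^ 2 := by
    rw [hDc]
    have := mul_le_mul_of_nonneg_right hq4 hcc.le
    linarith
  have hDC2 : c ^ 2 < 4 * P ^ 2 / (81 * w ^ 2) := by
    rw [hDc]
    have := mul_le_mul_of_nonneg_right hq3 hcc.le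
    linarith
  refine ⟨a ^ 2, b ^ 2, c ^ 2, 1 / (a * b * c) ^ 2, X / (a * b * c) ^ 2, by positivity,
    by gcongr, ?_, ?_, ?_, ?_, hD, IsSquare.sq a, IsSquare.sq b, IsSquare.sq c,
    ⟨1 / (a * b * c), by ring⟩, ⟨r, by rw [er]; ring⟩, ⟨s, by rw [es]; ring⟩,
    ⟨(5 / 4) / (b * c), ?_⟩, k1, ⟨5 / 4, by rw [et]; ring⟩, ⟨s / (a * c), ?_⟩, k2,
    ⟨r / (a * b), ?_⟩, k3, k4⟩
  · exact pow_lt_one₀ ha0.le ha1 two_ne_zero
  · rw [hE, hD]
    have h5 := mul_lt_mul'' hX1 hDpos (by norm_num) (by norm_num)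
    linarith
  · rw [hE, hD]
    have h5 : X * (4 * P ^ 2 / (81 * w ^ 2)) ≤ 6 / 100 * (4 * P ^ 2 / (81 * w ^ 2)) := by
      gcongr
    linarith
  · rw [hD]; exact hDC2
  · have : a ^ 2 * (1 / (a * b * c) ^ 2) + 1 = (b ^ 2 * c ^ 2 + 1) / (b * c) ^ 2 := by
      field_simp; ring
    rw [this, et]; ring
  · have : b ^ 2 * (1 / (a * b * c) ^ 2) + 1 = (a ^ 2 * c ^ 2 + 1) / (a * c) ^ 2 := by
      field_simp; ring
    rw [this, es]; ring
  · have : c ^ 2 * (1 / (a * b * c) ^ 2) + 1 = (a ^ 2 * b ^ 2 + 1) / (a * b) ^ 2 := by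
      field_simp; ring
    rw [this, er]; ring

/-- There are infinitely many rational Diophantine quintuples of positive rationals with at least
four square elements. -/
theorem infinitely_many :
    {S : Finset ℚ | S.card = 5 ∧ (∀ x ∈ S, 0 < x) ∧
      (∀ x ∈ S, ∀ y ∈ S, x ≠ y → IsSquare (x * y + 1)) ∧
      ∃ T ⊆ S, T.card = 4 ∧ ∀ x ∈ T, IsSquare x}.Infinite := by
  intro hfin
  -- the union of a finite family of finite sets is bounded
  have hfin2 : (⋃ S ∈ {S : Finset ℚ | S.card = 5 ∧ (∀ x ∈ S, 0 < x) ∧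
      (∀ x ∈ S, ∀ y ∈ S, x ≠ y → IsSquare (x * y + 1)) ∧
      ∃ T ⊆ S, T.card = 4 ∧ ∀ x ∈ T, IsSquare x}, (S : Set ℚ)).Finite :=
    hfin.biUnion fun S _ => S.finite_toSet
  obtain ⟨M, hM⟩ := hfin2.bddAbove
  -- choose the parameter so that the largest element exceeds the bound
  set N : ℚ := max M 1 with hN
  have hN1 : 1 ≤ N := le_max_right _ _
  have hNM : M ≤ N := le_max_left _ _
  have hw0 : 0 < 1 / (100 * N) := by positivity
  have hw1 : 1 / (100 * N) ≤ 1 / 100 := by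
    apply one_div_le_one_div_of_le (by norm_num); linarith
  obtain ⟨A, B, C, D, E, h1, h2, h3, h4, h5, h6, hD, sA, sB, sC, sD, ab, ac, ad, ae, bc, bd, be,
    cd, ce, de⟩ := family (1 / (100 * N)) hw0 hw1
  have hA0 : 0 < A := h1.trans h2
  have hDN : N < D := by
    rw [hD]
    have e1 : 4 * (1 - 12 * (1 / (100 * N)) ^ 2) ^ 2 / (81 * (1 / (100 * N)) ^ 2)
        = 40000 / 81 * (N - 12 / (10000 * N)) ^ 2 := by
      have : N ≠ 0 := by positivity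
      field_simp
      ring
    have e2 : N * (9 / 10) ≤ N - 12 / (10000 * N) := by
      have h7 : 12 / (10000 * N) ≤ 12 / 10000 := by
        apply div_le_div_of_nonneg_left (by norm_num) (by norm_num); linarith
      linarith
    have e3 : (N * (9 / 10)) ^ 2 ≤ (N - 12 / (10000 * N)) ^ 2 := by gcongr
    rw [e1]
    nlinarith
  have hmem : ({A, B, C, D, E} : Finset ℚ) ∈ {S : Finset ℚ | S.card = 5 ∧ (∀ x ∈ S, 0 < x) ∧
      (∀ x ∈ S, ∀ y ∈ S, x ≠ y → IsSquare (x * y + 1)) ∧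
      ∃ T ⊆ S, T.card = 4 ∧ ∀ x ∈ T, IsSquare x} := by
    have nAB : A ≠ B := ne_of_gt h2
    have nAE : A ≠ E := ne_of_lt (h3.trans h4)
    have nAC : A ≠ C := ne_of_lt ((h3.trans h4).trans h5)
    have nAD : A ≠ D := ne_of_lt (((h3.trans h4).trans h5).trans h6)
    have nBE : B ≠ E := ne_of_lt (h2.trans (h3.trans h4))
    have nBC : B ≠ C := ne_of_lt ((h2.trans (h3.trans h4)).trans h5)
    have nBD : B ≠ D := ne_of_lt (((h2.trans (h3.trans h4)).trans h5).trans h6)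
    have nCD : C ≠ D := ne_of_lt h6
    have nCE : C ≠ E := ne_of_gt h5
    have nDE : D ≠ E := ne_of_gt (h5.trans h6)
    refine ⟨?_, ?_, ?_, {A, B, C, D}, ?_, ?_, ?_⟩
    · simp [nAB, nAC, nAD, nAE, nBC, nBD, nBE, nCD, nCE, nDE]
    · intro x hx
      simp only [Finset.mem_insert, Finset.mem_singleton] at hx
      rcases hx with rfl | rfl | rfl | rfl | rfl <;> linarith
    · intro x hx y hy hxy
      simp only [Finset.mem_insert, Finset.mem_singleton] at hx hy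
      rcases hx with rfl | rfl | rfl | rfl | rfl <;> rcases hy with rfl | rfl | rfl | rfl | rfl <;>
        first
          | exact absurd rfl hxy
          | assumption
          | (rw [mul_comm]; assumption)
    · intro x hx
      simp only [Finset.mem_insert, Finset.mem_singleton] at hx ⊢
      tauto
    · simp [nAB, nAC, nAD, nBC, nBD, nCD]
    · intro x hx
      simp only [Finset.mem_insert, Finset.mem_singleton] at hx
      rcases hx with rfl | rfl | rfl | rfl <;> assumption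
  have hle : D ≤ M := hM (Set.mem_biUnion hmem (by simp))
  linarith

end Pool.Agent.H86.ET
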